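import Mathlib
import Pool.Agent.SympTrans.Flow

/-!
# Three symplectic one-parameter unipotent subgroups acting infinitely transitively

For every field `K` of characteristic zero (in particular every algebraically closed one), every
`n ≥ 2` and every nondegenerate skew-symmetric bilinear form `ω` on `K^{2n}` there are three
`𝔾ₐ`-subgroups of `Aut(𝔸^{2n})`, consisting of symplectomorphisms, which generate a group acting
infinitely transitively on `𝔸^{2n}`.
-/

namespace Pool.Agent.Results.MP_e86abc_ag.ThreeSymplecticSubgroups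

open MvPolynomial

/-- `σ` is the self-map of affine space `K^ι` given by the tuple of polynomials `f`. -/
def IsGivenBy {ι K : Type*} [Field K] (f : ι → MvPolynomial ι K) (σ : (ι → K) → (ι → K)) : Prop :=
  ∀ (x : ι → K) (i : ι), σ x i = eval x (f i)

/-- `σ` is a regular automorphism of affine space: a bijection of `K^ι` such that `σ` and `σ⁻¹`
are both given by polynomials. -/
def IsRegularAut {ι K : Type*} [Field K] (σ : Equiv.Perm (ι → K)) : Prop :=
  (∃ f : ι → MvPolynomial ι K, IsGivenBy f σ) ∧ ∃ g : ι → MvPolynomial ι K, IsGivenBy g σ.symm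

/-- `U` is a `𝔾ₐ`-subgroup: the image of a nontrivial regular action `ρ` of the additive group
`(K, +)` on affine space, i.e. `ρ t x` is polynomial in `(t, x)` (the variable `none` is `t`, the
variable `some i` is `x i`). -/
def IsGaSubgroup {ι K : Type*} [Field K] (U : Subgroup (Equiv.Perm (ι → K))) : Prop :=
  ∃ ρ : Multiplicative K →* Equiv.Perm (ι → K),
    (∃ P : ι → MvPolynomial (Option ι) K, ∀ (t : K) (x : ι → K) (i : ι),
      ρ (Multiplicative.ofAdd t) x i = eval (fun o => o.elim t x) (P i)) ∧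
    ρ ≠ 1 ∧ ρ.range = U

/-- The differential (Jacobian matrix) at the point `p` of the polynomial map given by `f`. -/
noncomputable def differential {ι K : Type*} [Field K] (f : ι → MvPolynomial ι K) (p : ι → K) :
    Matrix ι ι K :=
  Matrix.of fun i j => eval p (pderiv j (f i))

/-- `σ` is a symplectomorphism for the constant symplectic form `ω`: a regular automorphism whose
differential at every point `p` preserves `ω`. -/
def IsSymplectomorphism {ι K : Type*} [Fintype ι] [Field K] (ω : LinearMap.BilinForm K (ι → K))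
    (σ : Equiv.Perm (ι → K)) : Prop :=
  IsRegularAut σ ∧ ∀ f : ι → MvPolynomial ι K, IsGivenBy f σ →
    ∀ p u v : ι → K, ω ((differential f p).mulVec u) ((differential f p).mulVec v) = ω u v

/-- The group `H` of permutations of `X` acts infinitely transitively. -/
def IsInfinitelyTransitive {X : Type*} (H : Subgroup (Equiv.Perm X)) : Prop :=
  ∀ m : ℕ, 1 ≤ m → ∀ x y : Fin m → X, Function.Injective x → Function.Injective y →
    ∃ h ∈ H, ∀ i, h (x i) = y i

/-! ### Assembling the proof -/

open Pool.Agent.SympTrans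

section aux

variable {K : Type*} [Field K] {ι : Type*}

/-- a polynomial flow is a `𝔾ₐ`-subgroup -/
lemma flow_isGa (ξ : (ι → K) → (ι → K)) (hξ : ∀ (t : K) (v : ι → K), ξ (v + t • ξ v) = ξ v)
    (hpoly : ∀ i, PolyFun fun v => ξ v i) (hne : ∃ v, ξ v ≠ 0) :
    IsGaSubgroup (flow ξ hξ).range := by
  choose Q hQ' using hpoly
  have hQ : ∀ i z, ξ z i = eval z (Q i) := hQ'
  refine ⟨flow ξ hξ, ⟨fun i => X (some i) + X none * rename some (Q i), ?_⟩, ?_, rfl⟩
  · intro t x i
    have e : (fun o : Option ι => o.elim t x) ∘ some = x := by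
      funext j; rfl
    rw [flow_apply, map_add, map_mul, eval_X, eval_X, eval_rename, e, Pi.add_apply, Pi.smul_apply,
      hQ, smul_eq_mul]
    rfl
  · intro h
    obtain ⟨v, hv⟩ := hne
    apply hv
    have h1 : flow ξ hξ (Multiplicative.ofAdd 1) v = v := by rw [h]; rfl
    rw [flow_apply, one_smul] at h1
    simpa using h1

/-- a polynomial flow with Hamiltonian differential consists of symplectomorphisms -/
lemma flow_symp [Fintype ι] [Infinite K] (ω : LinearMap.BilinForm K (ι → K))
    (ξ : (ι → K) → (ι → K)) (dξ : (ι → K) → (ι → K) → (ι → K))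
    (hξ : ∀ (t : K) (v : ι → K), ξ (v + t • ξ v) = ξ v)
    (hpoly : ∀ i, PolyFun fun v => ξ v i)
    (hd : ∀ p u i, Taylor (fun s : K => ξ (p + s • u) i) (dξ p u i))
    (hω1 : ∀ p u v, ω (dξ p u) (dξ p v) = 0)
    (hω2 : ∀ p u v, ω (dξ p u) v + ω u (dξ p v) = 0)
    (σ : Equiv.Perm (ι → K)) (hσ : σ ∈ (flow ξ hξ).range) : IsSymplectomorphism ω σ := by
  obtain ⟨t, rfl⟩ := hσ
  obtain ⟨t, rfl⟩ := Multiplicative.ofAdd.surjective t
  choose Q hQ' using hpoly
  have hQ : ∀ i z, ξ z i = eval z (Q i) := hQ'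
  refine ⟨⟨⟨fun i => X i + C t * Q i, ?_⟩, ⟨fun i => X i - C t * Q i, ?_⟩⟩, ?_⟩
  · intro x i
    rw [flow_apply, map_add, map_mul, eval_X, eval_C, Pi.add_apply, Pi.smul_apply, hQ, smul_eq_mul]
  · intro x i
    rw [flow_symm_apply, map_sub, map_mul, eval_X, eval_C, Pi.sub_apply, Pi.smul_apply, hQ,
      smul_eq_mul]
  · intro f hf p u v
    have key : ∀ u, (differential f p).mulVec u = u + t • dξ p u := by
      intro u
      funext i
      refine jacobian_mulVec (f i) p u _ ?_
      have e : (fun s : K => eval (fun j => p j + s * u j) (f i))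
          = fun s : K => (p i + s * u i) + t * ξ (p + s • u) i := by
        funext s
        have := hf (p + s • u) i
        rw [flow_apply] at this
        have e' : (fun j => p j + s * u j) = p + s • u := rfl
        rw [e', ← this]
        simp
      rw [e]
      have h1 := (Taylor.const t).mul (hd p u i)
      rw [zero_mul, zero_add] at h1
      exact (Taylor.id' (p i) (u i)).add h1
    rw [key, key]
    have h1 := hω1 p u v
    have h2 := hω2 p u v
    simp only [map_add, map_smul, LinearMap.add_apply, LinearMap.smul_apply, smul_eq_mul, h1]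
    linear_combination t * h2

end aux

/-- **Main result.** Positive answer to Q1, for every field of characteristic zero and every
nondegenerate skew-symmetric form. -/
theorem result {K : Type*} [Field K] [CharZero K] (n : ℕ) (hn : 2 ≤ n)
    (ω : LinearMap.BilinForm K (Fin (2 * n) → K)) (hskew : ∀ u v, ω u v = - ω v u)
    (hnd : ω.Nondegenerate) :
    ∃ U₁ U₂ U₃ : Subgroup (Equiv.Perm (Fin (2 * n) → K)),
      (IsGaSubgroup U₁ ∧ IsGaSubgroup U₂ ∧ IsGaSubgroup U₃) ∧
      (∀ σ, σ ∈ U₁ ∨ σ ∈ U₂ ∨ σ ∈ U₃ → IsSymplectomorphism ω σ) ∧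
      IsInfinitelyTransitive (U₁ ⊔ U₂ ⊔ U₃) := by
  have hω : ∀ v, ω v v = 0 := by
    intro v
    have h1 := hskew v v
    have h2 : (2 : K) * ω v v = 0 := by linear_combination h1
    exact (mul_eq_zero.mp h2).resolve_left two_ne_zero
  have hnd' : ∀ w : Fin (2 * n) → K, w ≠ 0 → ∃ v, ω v w ≠ 0 := by
    intro w hw
    by_contra hcon
    push Not at hcon
    exact hw (hnd.2 w hcon)
  obtain ⟨e, he⟩ := exists_isometry ω hω hnd' n (by
    rw [Module.finrank_fintype_fun_eq_card, Fintype.card_fin])
  -- the three vector fields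
  have hid : ∀ x u : Fin n → K, ∀ i, Taylor (fun s : K => (x + s • u) i) (u i) :=
    fun x u i => Taylor.id' (x i) (u i)
  let φid : (Fin n → K) → (Fin n → K) := id
  let ξ1 := tr e (ψA φid)
  let ξ2 := tr e (ψB (K := K) (n := n))
  let ξ3 := tr e (ψA Φ)
  have inv1 : ∀ (t : K) v, ξ1 (v + t • ξ1 v) = ξ1 v := tr_inv e _ (ψA_inv _)
  have inv2 : ∀ (t : K) v, ξ2 (v + t • ξ2 v) = ξ2 v := tr_inv e _ ψB_inv
  have inv3 : ∀ (t : K) v, ξ3 (v + t • ξ3 v) = ξ3 v := tr_inv e _ (ψA_inv _)
  have p0 : ∀ k : Fin n, PolyFun (fun _ : Fin (2 * n) → K => (0 : Fin n → K) k) :=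
    fun k => PolyFun.const 0
  have poly1 : ∀ i, PolyFun fun v => ξ1 v i := tr_poly e _ p0 (polyFun_fst e)
  have poly2 : ∀ i, PolyFun fun v => ξ2 v i := tr_poly e _ (polyFun_snd e) p0
  have poly3 : ∀ i, PolyFun fun v => ξ3 v i := tr_poly e _ p0 (Φ_poly e)
  -- nontriviality
  let i0 : Fin n := ⟨0, by omega⟩
  have ne_of : ∀ ψ : (Fin n → K) × (Fin n → K) → (Fin n → K) × (Fin n → K),
      (∃ q, ψ q ≠ 0) → ∃ v, tr e ψ v ≠ 0 := by
    rintro ψ ⟨q, hq⟩
    refine ⟨e.symm q, ?_⟩
    rw [tr, LinearEquiv.apply_symm_apply]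
    exact fun h => hq (by simpa using h)
  have ne1 : ∃ v, ξ1 v ≠ 0 := ne_of _ ⟨(fun _ => 1, 0), fun h => by
    have := congrFun (congrArg Prod.snd h) i0
    simp [ψA, φid] at this⟩
  have ne2 : ∃ v, ξ2 v ≠ 0 := ne_of _ ⟨(0, fun _ => 1), fun h => by
    have := congrFun (congrArg Prod.fst h) i0
    simp [ψB] at this⟩
  have ne3 : ∃ v, ξ3 v ≠ 0 := ne_of _ ⟨(0, 0), fun h => by
    have := congrFun (congrArg Prod.snd h) i0
    simp [ψA, Φ, φ0, φ1, φ2, φ3] at this⟩
  -- differentials
  let d1 : (Fin n → K) × (Fin n → K) → (Fin n → K) × (Fin n → K) → (Fin n → K) × (Fin n → K) :=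
    fun _ w => (0, w.1)
  let d2 : (Fin n → K) × (Fin n → K) → (Fin n → K) × (Fin n → K) → (Fin n → K) × (Fin n → K) :=
    fun _ w => (w.2, 0)
  let d3 : (Fin n → K) × (Fin n → K) → (Fin n → K) × (Fin n → K) → (Fin n → K) × (Fin n → K) :=
    fun q w => (0, dΦ q.1 w.1)
  have t1 : ∀ p u i, Taylor (fun s : K => ξ1 (p + s • u) i) (e.symm (d1 (e p) (e u)) i) :=
    tr_taylor e _ d1 (fun _ _ _ => Taylor.const 0) (fun q w k => hid q.1 w.1 k)
  have t2 : ∀ p u i, Taylor (fun s : K => ξ2 (p + s • u) i) (e.symm (d2 (e p) (e u)) i) :=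
    tr_taylor e _ d2 (fun q w k => hid q.2 w.2 k) (fun _ _ _ => Taylor.const 0)
  have t3 : ∀ p u i, Taylor (fun s : K => ξ3 (p + s • u) i) (e.symm (d3 (e p) (e u)) i) :=
    tr_taylor e _ d3 (fun _ _ _ => Taylor.const 0) (fun q w k => Φ_taylor q.1 w.1 k)
  have s1 := flow_symp ω ξ1 _ inv1 poly1 t1
    (by intro p u v; rw [he]; simp [d1])
    (by
      intro p u v
      rw [he, he]
      simp only [LinearEquiv.apply_symm_apply, ω₀_apply, d1, zero_dotProduct, dotProduct_zero,
        dotProduct_comm (e u).1 (e v).1]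
      ring)
  have s2 := flow_symp ω ξ2 _ inv2 poly2 t2
    (by intro p u v; rw [he]; simp [d2])
    (by
      intro p u v
      rw [he, he]
      simp only [LinearEquiv.apply_symm_apply, ω₀_apply, d2, zero_dotProduct, dotProduct_zero,
        dotProduct_comm (e u).2 (e v).2]
      ring)
  have s3 := flow_symp ω ξ3 _ inv3 poly3 t3
    (by intro p u v; rw [he]; simp [d3])
    (by
      intro p u v
      rw [he, he]
      simp only [LinearEquiv.apply_symm_apply, ω₀_apply, d3, zero_dotProduct, dotProduct_zero,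
        dΦ_symm (e p).1 (e u).1 (e v).1]
      ring)
  refine ⟨(flow ξ1 inv1).range, (flow ξ2 inv2).range, (flow ξ3 inv3).range,
    ⟨flow_isGa ξ1 inv1 poly1 ne1, flow_isGa ξ2 inv2 poly2 ne2, flow_isGa ξ3 inv3 poly3 ne3⟩,
    ?_, ?_⟩
  · rintro σ (h | h | h)
    · exact s1 σ h
    · exact s2 σ h
    · exact s3 σ h
  · intro m _ x y hx hy
    set H : Subgroup (Equiv.Perm (Fin (2 * n) → K)) :=
      (flow ξ1 inv1).range ⊔ (flow ξ2 inv2).range ⊔ (flow ξ3 inv3).range with hH
    let c : Equiv.Perm ((Fin n → K) × (Fin n → K)) ≃* Equiv.Perm (Fin (2 * n) → K) :=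
      e.symm.toEquiv.permCongrHom
    have hc : ∀ (g : Equiv.Perm ((Fin n → K) × (Fin n → K))) v, c g v = e.symm (g (e v)) :=
      fun _ _ => rfl
    have hA : ∀ t : K, A (t • (id : (Fin n → K) → (Fin n → K))) ∈ H.comap c.toMonoidHom := by
      intro t
      rw [Subgroup.mem_comap]
      have : c.toMonoidHom (A (t • (id : (Fin n → K) → (Fin n → K))))
          = flow ξ1 inv1 (Multiplicative.ofAdd t) := by
        apply Equiv.ext
        intro v
        show c _ v = _
        rw [hc, flow_apply]
        apply e.injective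
        simp only [ξ1, tr, map_add, map_smul, LinearEquiv.apply_symm_apply, A_apply, ψA, φid]
        refine Prod.ext ?_ ?_ <;> simp
      rw [this, hH]
      exact Subgroup.mem_sup_left (Subgroup.mem_sup_left ⟨_, rfl⟩)
    have hB : ∀ t : K, B (t • (id : (Fin n → K) → (Fin n → K))) ∈ H.comap c.toMonoidHom := by
      intro t
      rw [Subgroup.mem_comap]
      have : c.toMonoidHom (B (t • (id : (Fin n → K) → (Fin n → K))))
          = flow ξ2 inv2 (Multiplicative.ofAdd t) := by
        apply Equiv.ext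
        intro v
        show c _ v = _
        rw [hc, flow_apply]
        apply e.injective
        simp only [ξ2, tr, map_add, map_smul, LinearEquiv.apply_symm_apply, B_apply, ψB]
        refine Prod.ext ?_ ?_ <;> simp
      rw [this, hH]
      exact Subgroup.mem_sup_left (Subgroup.mem_sup_right ⟨_, rfl⟩)
    have hC : ∀ t : K, A (t • (Φ : (Fin n → K) → (Fin n → K))) ∈ H.comap c.toMonoidHom := by
      intro t
      rw [Subgroup.mem_comap]
      have : c.toMonoidHom (A (t • (Φ : (Fin n → K) → (Fin n → K))))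
          = flow ξ3 inv3 (Multiplicative.ofAdd t) := by
        apply Equiv.ext
        intro v
        show c _ v = _
        rw [hc, flow_apply]
        apply e.injective
        simp only [ξ3, tr, map_add, map_smul, LinearEquiv.apply_symm_apply, A_apply, ψA]
        refine Prod.ext ?_ ?_ <;> simp
      rw [this, hH]
      exact Subgroup.mem_sup_right ⟨_, rfl⟩
    obtain ⟨h, hh, hxy⟩ := main_transitive hn (H.comap c.toMonoidHom) hA hB hC m
      (fun i => e (x i)) (fun i => e (y i)) (e.injective.comp hx) (e.injective.comp hy)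
    refine ⟨c h, hh, fun i => ?_⟩
    rw [hc, hxy i, LinearEquiv.symm_apply_apply]

end Pool.Agent.Results.MP_e86abc_ag.ThreeSymplecticSubgroups
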